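import Pool.Agent.Zk73.AK.C

/-! # Almost all sets of slopes are of no use in the arithmetic Kakeya conjecture

The arithmetic Kakeya conjecture says that for every `ε > 0` the inequality
`|π₋₁(A)| ≤ max (|π_∞(A)|, max_{r ∈ S} |π_r(A)|) ^ (1 + ε)` holds with a suitable finite set `S` of
slopes. With one slope the exponent is `2`. We show that RANDOM slopes are of no use.

1. Let `b ≥ 1`, `n ≥ 2` and `κ < 2 b n / ((2 b - 1) n + 1)`. There is `C` such that for `k ≤ b l` and
   every finite set `R` of slopes at most `C ^ (n ^ l) |R| ^ (k - 1)` of the `|R| ^ k` tuples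
   `(s_1, …, s_k)` with `s_i ∈ R` satisfy the inequality with the exponent `κ` (and any constant
   factor). For `b = 1` and `n` large this covers every exponent `κ < 2`: almost all sets of
   `k ≤ c(κ) log log N` slopes from `N` given slopes are not better than a single slope.
2. Let `0 < ε < 1 / 3`. If `N = |R|` is large and `1 ≤ k ≤ (log log N) / (8 ε)` then at most
   `N ^ (k - 1 / 2)` of the `N ^ k` tuples satisfy the inequality with the exponent `1 + ε`. So at
   least `(log log N) / (8 ε)` random slopes (of height at most `N`, say) are necessary for the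
   exponent `1 + ε`.

Idea of the proof. The digit sets `X_{j+1} = X_j + ν_j X_j + … + ν_j ^ (n-1) X_j` of the starting file
`LacunarySlopes` show that the slopes `t - 1`, `t + ν_j - 1` (`j < l`) are of no use if each `ν_j` avoids
a finite set which depends on `t` and the previous `ν_i`. We bound the size of this set by
`n |X_j| ^ (4 n)`, which is doubly exponential in `j`, and count the tuples by fixing all coordinates
but one. For small `ε` the slopes are divided into `b ≈ 1 / (4 ε)` blocks of length `l`, and the product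
of the sets of points for the blocks is used: it is of no use for any of the blocks as long as
`ε < 1 / (4 b - 1)`. -/

set_option autoImplicit false

open Finset

namespace Pool.Agent.Results.MP_169869_co.AlmostAllSlopes

/-- the projection `π_r(A) = {x + r y : (x, y) ∈ A}` -/
def proj (r : ℚ) (A : Finset (ℤ × ℤ)) : Finset ℚ :=
  A.image (fun p : ℤ × ℤ => (p.1 : ℚ) + r * (p.2 : ℚ))

/-- the projection `π_∞(A) = {y : (x, y) ∈ A}` -/
def projInf (A : Finset (ℤ × ℤ)) : Finset ℚ := A.image (fun p : ℤ × ℤ => (p.2 : ℚ))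

/-- the largest size of a projection of `A` with slope `∞` or in `S` -/
def big (S : Finset ℚ) (A : Finset (ℤ × ℤ)) : ℕ :=
  max (projInf A).card (S.sup fun r => (proj r A).card)

/-- the slopes `S` (and `∞`) give the inequality with the exponent `κ`, up to a constant factor -/
def Useful (κ : ℝ) (S : Finset ℚ) : Prop :=
  ∃ C : ℝ, ∀ A : Finset (ℤ × ℤ), ((proj (-1) A).card : ℝ) ≤ C * (big S A : ℝ) ^ κ

open Classical in
theorem result :
    -- 1. few of the tuples of slopes from a finite set are useful
    (∀ b n : ℕ, 1 ≤ b → 2 ≤ n → ∀ κ : ℝ, κ < 2 * b * n / ((2 * b - 1) * n + 1) →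
      ∃ C : ℕ, ∀ l k : ℕ, k ≤ b * l → ∀ R : Finset ℚ,
        ((Fintype.piFinset fun _ : Fin k => R).filter
          fun s : Fin k → ℚ => Useful κ (univ.image s)).card ≤ C ^ n ^ l * R.card ^ (k - 1)) ∧
    -- 2. exponents close to one
    (∀ ε : ℝ, 0 < ε → ε < 1 / 3 → ∃ N : ℕ, ∀ R : Finset ℚ, N ≤ R.card →
      ∀ k : ℕ, 1 ≤ k → (k : ℝ) ≤ Real.log (Real.log R.card) / (8 * ε) →
        (((Fintype.piFinset fun _ : Fin k => R).filter
          fun s : Fin k → ℚ => Useful (1 + ε) (univ.image s)).card : ℝ) ≤
            (R.card : ℝ) ^ ((k : ℝ) - 1 / 2)) := by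
  refine ⟨fun b n hb hn κ hκ => ?_, fun ε h0 h1 => ?_⟩
  · have hbR : (1 : ℝ) ≤ b := by exact_mod_cast hb
    have h : κ * ((2 * b - 1) * n + 1) < 2 * b * n := by
      rw [lt_div_iff₀ (by nlinarith [(Nat.cast_nonneg n : (0 : ℝ) ≤ n)])] at hκ
      exact hκ
    obtain ⟨C, -, hC⟩ := Pool.Agent.Zk73.AK.main b n (by omega) hn κ h
    exact ⟨C, fun l k hk R => hC l k hk R⟩
  · obtain ⟨N, hN⟩ := Pool.Agent.Zk73.AK.random ε h0 h1
    exact ⟨N, fun R hR k hk hk' => hN R hR k hk hk'⟩

end Pool.Agent.Results.MP_169869_co.AlmostAllSlopes
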