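import Pool.Agent.Zk22.HG.E
import Pool.Agent.Zk22.NG.Orbit

/-!
# The arithmetic Kakeya conjecture: nilpotent groups, homogeneous sets, orbits, words, growth

Let `S` be a finite set of rational slopes; `big S A` is the largest size of a projection of
`A ⊂ ℤ × ℤ` with slope `∞` or in `S`.

1. If a NILPOTENT group of class at most `c + 1` acts transitively on `A` by permutations of `A` which
   respect the fibres of the projections with slopes in `S`, then
   `|A| ^ |S| ≤ |A| ^ (2 ^ c) ∏_{r ∈ S} |π_r(A)|`. So the inequality of the conjecture with the exponent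
   `1 + ε` holds for all these `A` and ANY `S` with at least `2 ^ c (1 + ε) / ε` elements. Moreover
   `|B| ≤ (big S A) ^ (1 + ε)` for all `A` and all subsets `B` of `A` of this kind. (If the group has a
   nilpotent subgroup of class `c + 1` and of index `m`, there is such a `B` with `|A| / m` elements.) The
   same for the orbits of the finite nilpotent groups `G` of automorphisms of `ℤ ^ n`:
   `|G (x - y)| ≤ M ^ (1 + ε)`, `M` the largest size of the orbits of `y` and of `x + r y`, `r ∈ S`.
2. For each `S` and `κ ≥ 0` the inequality `|π₋₁(A)| ≤ (big S A) ^ κ` for all `A` is equivalent to each of: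
   `|A| ≤ (big S A) ^ κ` for the homogeneous `A` on which `x - y` is injective, that is those with a
   transitive group of permutations which respect the fibres of all the projections with slope `∞`
   or in `S`; `n! ≤ M ^ κ` for all words `x`, `y` of `n` integers such that `x - y` has different letters, `M`
   the largest number of rearrangements of one of the words `y`, `x + r y`, `r ∈ S`;
   `|G (x - y)| ≤ M ^ κ` for all finite groups `G` of automorphisms of `ℤ ^ n` and `x`, `y` in `ℤ ^ n`, `M` the
   largest size of the orbits of `y` and of `x + r y`, `r ∈ S`.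
3. The conjecture is equivalent to: for every `m` there is a finite `S`, `-1 ∉ S`, such that `|A| ≥ k ^ m` for
   all nonempty `A` on which `x - y` is injective and in which all the fibres of the projections with
   slope `∞` or in `S` have at least `k` points.

So the conjecture is a statement on transitive groups of permutations, and it is true for the
nilpotent ones of bounded class.

Proof of 1. Let `f g` be the point `g a` and `K` the stabiliser of `a`, `H r` that of its fibre. It is
enough to find in each subgroup `Q ≠ K` which contains `K` a proper subgroup which contains `K` and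
`H r ∩ Q` for all but `2 ^ c` slopes `r`: the indices in the resulting chain of subgroups give
`∏ [H r : K] ≤ [G : K] ^ (2 ^ c)`. Otherwise the `H r ∩ Q` generate `Q` even if any `2 ^ c` of the slopes are
left out. The functions `F_s(g) = x(f g) + s y(f g)` on `Q` are polynomials in `s`, and `H s ∩ Q` fixes `F_s`
under right translations. For the Fourier components `F_(s,ω)` along the centre `Z` of `Q` the products
`F_(s,ω)(g) conj F_(s,ω)(u g)` are functions on `Q / Z`, polynomials of twice the degree in `s`, and by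
induction they are fixed by `Q`. So `Q` acts on `F_(s,ω)` by scalars which are roots of unity; they do
not depend on `s`, and are one for the elements of `H t` if `F_(t,ω) ≠ 0`, that is for all but few `t`. Hence
`Q` fixes all `F_s`, and `Q = K`.
Proof of 2. The set of the values at `M` of the vectors of an orbit (or of the permuted words), in a good
base `M`, is homogeneous; powers of `A` in a large base keep `x - y` injective.
-/

set_option autoImplicit false

namespace Pool.Agent.Results.MP_169869_co.HomogeneousSets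

open Pool.Agent.N326.AK Pool.Agent.Zk22.HG Pool.Agent.Zk22.NG

theorem result :
    -- 1. nilpotent groups
    (∀ (c : ℕ) (S : Finset ℚ) (A : Finset (ℤ × ℤ)), A.Nonempty → NilHomogeneous (c + 1) S A →
      A.card ^ S.card ≤ A.card ^ (2 ^ c) * ∏ r ∈ S, (proj r A).card) ∧
    (∀ (c : ℕ) (ε : ℝ), 0 < ε → ∀ S : Finset ℚ, 2 ^ c * (1 + ε) / ε ≤ S.card → ∀ A B : Finset (ℤ × ℤ),
      B ⊆ A → NilHomogeneous (c + 1) S B → (B.card : ℝ) ≤ (big S A : ℝ) ^ (1 + ε)) ∧
    (∀ (c : ℕ) (ε : ℝ), 0 < ε → ∀ S : Finset ℚ, 2 ^ c * (1 + ε) / ε ≤ S.card →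
      ∀ (n : ℕ) (G : Subgroup ((Fin n → ℤ) ≃ₗ[ℤ] (Fin n → ℤ))), Finite G → Group.IsNilpotent G →
        Group.nilpotencyClass G ≤ c + 1 → ∀ x y : Fin n → ℤ,
        (orbitCard G (-1) x y : ℝ) ≤ (bigOrbit S G x y : ℝ) ^ (1 + ε)) ∧
    -- 2. the equivalences for each set of slopes and each exponent
    (∀ (S : Finset ℚ) (κ : ℝ), 0 ≤ κ → List.TFAE [
      ∀ A : Finset (ℤ × ℤ), ((proj (-1) A).card : ℝ) ≤ (big S A : ℝ) ^ κ,
      ∀ A : Finset (ℤ × ℤ), Set.InjOn (fun p : ℤ × ℤ => p.1 - p.2) (A : Set (ℤ × ℤ)) →
        Homogeneous S A → (A.card : ℝ) ≤ (big S A : ℝ) ^ κ,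
      ∀ (n : ℕ) (x y : Fin n → ℤ), Function.Injective (fun i => x i - y i) →
        (n.factorial : ℝ) ≤ (bigWord S x y : ℝ) ^ κ,
      ∀ (n : ℕ) (G : Subgroup ((Fin n → ℤ) ≃ₗ[ℤ] (Fin n → ℤ))), Finite G → ∀ x y : Fin n → ℤ,
        (orbitCard G (-1) x y : ℝ) ≤ (bigOrbit S G x y : ℝ) ^ κ]) ∧
    -- 3. growth
    ((∀ ε : ℝ, 0 < ε → ∃ S : Finset ℚ, (-1 : ℚ) ∉ S ∧ ∀ A : Finset (ℤ × ℤ),
        ((proj (-1) A).card : ℝ) ≤ (big S A : ℝ) ^ (1 + ε)) ↔
      ∀ m : ℕ, ∃ S : Finset ℚ, (-1 : ℚ) ∉ S ∧ ∀ (k : ℕ) (A : Finset (ℤ × ℤ)), A.Nonempty →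
        Set.InjOn (fun p : ℤ × ℤ => p.1 - p.2) (A : Set (ℤ × ℤ)) → Rich S k A → k ^ m ≤ A.card) := by
  refine ⟨fun _ _ _ hA h => nil_ineq hA h, fun _ ε hε S hS A B hBA h => ?_,
    fun _ _ hε _ hS _ G hfin hG hc x y => nil_orbit hε hS G hfin hG hc x y, fun S κ hκ => ?_,
    forms.out 0 3⟩
  · refine (nil_conj hε hS h).trans (Real.rpow_le_rpow (by positivity) ?_ (by linarith))
    exact_mod_cast big_mono_set S hBA
  have h := equiv5 S hκ
  tfae_have 1 ↔ 2 := h.out 0 3
  tfae_have 1 ↔ 3 := h.out 0 2
  tfae_have 1 ↔ 4 := h.out 0 4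
  tfae_finish

end Pool.Agent.Results.MP_169869_co.HomogeneousSets
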