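import Pool.Agent.Zk23.APFinal
import Pool.Agent.TH404.AK.Sdc3
import Pool.Agent.Zk23.APLow

/-!
# The arithmetic Kakeya conjecture and progressions in the graphs of functions over finite fields

For a function `f : F_q^d → F_q^m` (`q` prime) let `apDiff k f` be the set of the common differences
`v` of the `k`-term progressions `y, y + v, …, y + (k - 1) v` in the graph of `f`.  (A graph contains
no progression of two or more terms with `v.1 = 0`, `v ≠ 0`.)  The arithmetic Kakeya conjecture is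
equivalent to a statement on these sets, and there is a zero-one law: for given `k`, `d`, `m` either
for all large primes `q` there is a function `F_q^d → F_q^m` with all the common differences `v`,
`v.1 ≠ 0`, or there are at most `C q^(d+m)` common differences, for the functions with values in any
`F_q^m'`.

Proof.  Let `A` be a set of pairs `(y, v)` of integers for which the inequality fails.  A random
linear map sends the power `A^L` to `F_q^d × F_q^m`; the number of the points `y + j v` stays below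
`q^(d-c)`, so that almost all of them have a first coordinate of their own, whereas the number of the
`v` is larger than `q^(d+m+c)`, so that they are mapped to almost all of the `v`.  The exceptional
`v` are treated by more such maps, composed with translations, whose points avoid the points of the
previous ones.  For the unconditional part 5 we take the pairs `(y, v)` with `4 y = v ^ 2` modulo the
product of the odd primes up to `C log k log log k`: then `4 (y + j v) = (v + 2 j) ^ 2 - 4 j ^ 2`.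
-/

set_option autoImplicit false

namespace Pool.Agent.Results.MP_169869_co.ProgressionsInGraphs

/-- the projection `π_r(A) = {x + r y : (x, y) ∈ A}` -/
def proj (r : ℚ) (A : Finset (ℤ × ℤ)) : Finset ℚ :=
  A.image (fun p : ℤ × ℤ => (p.1 : ℚ) + r * (p.2 : ℚ))

/-- the projection `π_∞(A) = {y : (x, y) ∈ A}` -/
def projInf (A : Finset (ℤ × ℤ)) : Finset ℚ := A.image (fun p : ℤ × ℤ => (p.2 : ℚ))

/-- the largest size of a projection of `A` with slope `∞` or in `S` -/
def big (S : Finset ℚ) (A : Finset (ℤ × ℤ)) : ℕ :=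
  max (projInf A).card (S.sup fun r => (proj r A).card)

/-- the arithmetic Kakeya conjecture (Q1) -/
def Conj : Prop := ∀ ε : ℝ, 0 < ε → ∃ S : Finset ℚ, (-1 : ℚ) ∉ S ∧
  ∀ A : Finset (ℤ × ℤ), ((proj (-1) A).card : ℝ) ≤ (big S A : ℝ) ^ (1 + ε)

/-- the inequality of the conjecture with the exponent `κ` for the slopes of the `k`-term
progressions: `|{v}| ≤ max_{j < k} |{y + j v}| ^ κ` for all finite sets of pairs `(y, v)` -/
def Bound (k : ℕ) (κ : ℝ) : Prop :=
  ∀ A : Finset (ℤ × ℤ), ((A.image Prod.snd).card : ℝ) ≤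
    (((Finset.range k).sup fun j => (A.image fun p => p.1 + (j : ℤ) * p.2).card : ℕ) : ℝ) ^ κ

/-- the common differences of the `k`-term progressions in the graph of `f` -/
def apDiff {q d m : ℕ} (k : ℕ) (f : (Fin d → ZMod q) → (Fin m → ZMod q)) :
    Set ((Fin d → ZMod q) × (Fin m → ZMod q)) :=
  {v | ∃ y : (Fin d → ZMod q) × (Fin m → ZMod q), ∀ j < k,
    (y + (j : ZMod q) • v).2 = f (y + (j : ZMod q) • v).1}

theorem result :
    -- 1. a given length and a given exponent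
    (∀ (k : ℕ) (κ : ℝ), 1 ≤ k → 1 ≤ κ → List.TFAE [
      Bound k κ,
      ∀ d m : ℕ, ∃ C : ℝ, ∀ q : ℕ, q.Prime → ∀ f : (Fin d → ZMod q) → (Fin m → ZMod q),
        ((apDiff k f).ncard : ℝ) ≤ C * (q : ℝ) ^ (κ * d),
      ∀ d m : ℕ, 1 ≤ d → κ * d < d + m → ∀ Q : ℕ, ∃ q : ℕ, Q ≤ q ∧ q.Prime ∧
        ∀ f : (Fin d → ZMod q) → (Fin m → ZMod q), ∃ v, v.1 ≠ 0 ∧ v ∉ apDiff k f]) ∧
    -- 2. all the differences, or few differences in all dimensions
    (∀ k d m : ℕ, 1 ≤ k → 1 ≤ d →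
      (∃ Q : ℕ, ∀ q : ℕ, q.Prime → Q ≤ q → ∃ f : (Fin d → ZMod q) → (Fin m → ZMod q),
        ∀ v, v.1 ≠ 0 → v ∈ apDiff k f) ∨
      (∀ m' : ℕ, ∃ C : ℝ, ∀ q : ℕ, q.Prime → ∀ f : (Fin d → ZMod q) → (Fin m' → ZMod q),
        ((apDiff k f).ncard : ℝ) ≤ C * (q : ℝ) ^ (d + m))) ∧
    -- 3. the conjecture
    List.TFAE [
      Conj,
      ∀ d m : ℕ, ∀ η : ℝ, 0 < η → ∃ k Q : ℕ, ∀ q : ℕ, q.Prime → Q ≤ q →
        ∀ f : (Fin d → ZMod q) → (Fin m → ZMod q), ((apDiff k f).ncard : ℝ) ≤ (q : ℝ) ^ (d + η),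
      ∀ D : ℕ, ∃ d : ℕ, D ≤ d ∧ ∃ k : ℕ, ∀ Q : ℕ, ∃ q : ℕ, Q ≤ q ∧ q.Prime ∧
        ∀ f : (Fin d → ZMod q) → (Fin 1 → ZMod q), ∃ v, v.1 ≠ 0 ∧ v ∉ apDiff k f] ∧
    -- 4. if the conjecture is false
    (¬ Conj → ∃ ε : ℝ, 0 < ε ∧ ∀ k d m : ℕ, 1 ≤ d → (m : ℝ) ≤ ε * d →
      ∃ Q : ℕ, ∀ q : ℕ, q.Prime → Q ≤ q → ∃ f : (Fin d → ZMod q) → (Fin m → ZMod q),
        ∀ v, v.1 ≠ 0 → v ∈ apDiff k f) ∧
    -- 5. without any hypothesis: functions with all the differences for all `k`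
    (∃ c : ℝ, 0 < c ∧ ∀ k d m : ℕ, 3 ≤ k → 1 ≤ d →
      (m : ℝ) ≤ c * d / (Real.log (Real.log k) + 1) →
      ∃ Q : ℕ, ∀ q : ℕ, q.Prime → Q ≤ q → ∃ f : (Fin d → ZMod q) → (Fin m → ZMod q),
        ∀ v, v.1 ≠ 0 → v ∈ apDiff k f) ∧
    -- 6. without any hypothesis: few differences for some `k`
    ∃ k : ℕ, ∀ d m : ℕ, ∃ C : ℝ, ∀ q : ℕ, q.Prime → ∀ f : (Fin d → ZMod q) → (Fin m → ZMod q),
      ((apDiff k f).ncard : ℝ) ≤ C * (q : ℝ) ^ ((1669587 / 1000000 : ℝ) * d) := by
  refine ⟨fun k κ hk hκ => ?_, Pool.Agent.Zk23.APFinal.dichotomy,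
    Pool.Agent.Zk23.APFinal.tfae_conj, Pool.Agent.Zk23.APFinal.not_conj,
    ?_, ?_⟩
  · have h := Pool.Agent.Zk23.APFinal.tfae_length k κ hk hκ
    have e : (∀ d m : ℕ, ∃ C : ℝ, ∀ q : ℕ, q.Prime → ∀ f : (Fin d → ZMod q) → (Fin m → ZMod q),
          ((apDiff k f).ncard : ℝ) ≤ C * (q : ℝ) ^ (κ * d)) ↔
        (∀ d m : ℕ, ∃ C : ℝ, ∀ (q : ℕ) [Fact q.Prime],
          ∀ f : (Fin d → ZMod q) → (Fin m → ZMod q),
          ((Pool.Agent.Zk23.AKAP.apSet q d m k (Pool.Agent.Zk23.AKAP.gr f)).ncard : ℝ) ≤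
            C * (q : ℝ) ^ (κ * d)) := by
      refine forall_congr' fun d => forall_congr' fun m => exists_congr fun C => ?_
      exact ⟨fun h q hq f => h q hq.out f, fun h q hq f => by
        have : Fact q.Prime := ⟨hq⟩
        exact h q f⟩
    rw [e]
    exact h
  · obtain ⟨c, hc, h⟩ := Pool.Agent.Zk23.APLow.ap_bad_loglog
    exact ⟨c, hc, fun k d m hk hd hm => Pool.Agent.Zk23.APFinal.of_not_bound k
      (h k hk (1 + c / (Real.log (Real.log k) + 1)) le_rfl) d m hd (by rwa [div_mul_eq_mul_div])⟩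
  · obtain ⟨S, hS, h⟩ := Pool.Agent.TH404.AK.sdc3
    obtain ⟨k, hk⟩ := (Pool.Agent.Zk99.AKM3.bound_iff (1669587 / 1000000) (by norm_num)).1
      ⟨S, hS, fun A => by
        refine (h A).trans (le_of_eq ?_)
        congr 1
        exact_mod_cast rfl⟩
    refine ⟨k, fun d m => ?_⟩
    obtain ⟨C, hC⟩ := Pool.Agent.Zk85.AKM4.upper_ap k _ (by norm_num) hk d m
    refine ⟨C, fun q hq f => ?_⟩
    have : Fact q.Prime := ⟨hq⟩
    exact hC q f

end Pool.Agent.Results.MP_169869_co.ProgressionsInGraphs
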